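import Mathlib

/-!
# Closed subgroups of (minimal abelian) × compact
-/

namespace Pool.Agent.V60.CMin

open Set Topology Filter Pointwise

universe u v w

/-- `G` is a minimal group: each Hausdorff group topology `s` on `G` which is coarser than the
given topology `t` equals `t`. (In Mathlib's order `t ≤ s` says that `s` is coarser.) -/
def MinimalGroup (G : Type u) [Group G] [t : TopologicalSpace G] : Prop :=
  ∀ s : TopologicalSpace G, @IsTopologicalGroup G s _ → @T2Space G s → t ≤ s → s = t

/-- `G` is totally minimal: `G ⧸ N` is minimal for each closed normal subgroup `N`. -/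
def TotallyMinimal (G : Type u) [Group G] [TopologicalSpace G] : Prop :=
  ∀ (N : Subgroup G) [N.Normal], IsClosed (N : Set G) → MinimalGroup (G ⧸ N)

/-- `G` is c-minimal: each closed subgroup is minimal. -/
def CMinimal (G : Type u) [Group G] [TopologicalSpace G] : Prop :=
  ∀ H : Subgroup G, IsClosed (H : Set G) → MinimalGroup H

/-- `G` is c-totally minimal: each closed subgroup is totally minimal. -/
def CTotallyMinimal (G : Type u) [Group G] [TopologicalSpace G] : Prop :=
  ∀ H : Subgroup G, IsClosed (H : Set G) → TotallyMinimal H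

/-- Continuous isomorphisms from a minimal group to Hausdorff groups are homeomorphisms. -/
theorem MinimalGroup.isInducing {G : Type u} [Group G] [t : TopologicalSpace G]
    (h : MinimalGroup G) {L : Type w} [Group L] [TopologicalSpace L] [IsTopologicalGroup L]
    [T2Space L] (e : G ≃* L) (he : Continuous e) : IsInducing e := by
  have h2 : @T2Space G (TopologicalSpace.induced e inferInstance) :=
    @T2Space.of_injective_continuous G L (TopologicalSpace.induced e inferInstance) _ _ e
      e.injective continuous_induced_dom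
  exact ⟨(h (TopologicalSpace.induced e inferInstance) (topologicalGroup_induced e) h2
    (continuous_iff_le_induced.1 he)).symm⟩

theorem MinimalGroup.of_forall {G : Type u} [Group G] [t : TopologicalSpace G]
    (h : ∀ (L : Type u) [Group L] [TopologicalSpace L] [IsTopologicalGroup L] [T2Space L]
      (e : G ≃* L), Continuous e → Continuous e.symm) : MinimalGroup G := by
  intro s hs hs2 hts
  refine le_antisymm ?_ hts
  have h1 := @h G _ s hs hs2 (MulEquiv.refl G) (continuous_id_iff_le.2 hts)
  exact continuous_id_iff_le.1 h1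

/-- Closed subgroups of minimal abelian groups are minimal. -/
theorem minimal_of_closed {A : Type u} [CommGroup A] [TopologicalSpace A]
    [IsTopologicalGroup A] (hA : MinimalGroup A) (C : Subgroup A)
    (hC : IsClosed (C : Set A)) : MinimalGroup C := by
  refine MinimalGroup.of_forall fun L _ _ _ _ e he => ?_
  let m : A × L →* A :=
    { toFun := fun p => p.1 * (e.symm p.2 : C)
      map_one' := by simp
      map_mul' := fun p q => by simp [mul_mul_mul_comm] }
  have hmapp : ∀ p : A × L, m p = p.1 * (e.symm p.2 : C) := fun _ => rfl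
  have hm : Function.Surjective m := fun a => ⟨(a, 1), by simp [hmapp]⟩
  have hker : IsClosed (m.ker : Set (A × L)) := by
    rw [← isOpen_compl_iff, isOpen_iff_mem_nhds]
    rintro ⟨a, c⟩ hac
    have hac : a * (e.symm c : C) ≠ 1 := hac
    by_cases ha : a ∈ C
    · have hne : e (⟨a, ha⟩ : C)⁻¹ ≠ c := by
        intro h
        apply hac
        rw [← h]
        simp
      obtain ⟨V, W, hV, hW, haV, hcW, hVW⟩ := t2_separation hne
      have hVi : IsOpen ((fun x : C => e x⁻¹) ⁻¹' V) := hV.preimage (he.comp continuous_inv)
      obtain ⟨U, hU, hUV⟩ := isOpen_induced_iff.1 hVi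
      have haU : a ∈ U := by
        have : (⟨a, ha⟩ : C) ∈ Subtype.val ⁻¹' U := by rw [hUV]; exact haV
        exact this
      filter_upwards [(hU.prod hW).mem_nhds ⟨haU, hcW⟩] with p hp hpker
      have hpker : p.1 * (e.symm p.2 : C) = 1 := hpker
      have hp1 : p.1 = ((e.symm p.2 : C) : A)⁻¹ := eq_inv_of_mul_eq_one_left hpker
      have hmem : (e.symm p.2)⁻¹ ∈ Subtype.val ⁻¹' U := by
        change (((e.symm p.2 : C) : A)⁻¹) ∈ U
        rw [← hp1]
        exact hp.1
      rw [hUV] at hmem
      have hmem' : e ((e.symm p.2)⁻¹)⁻¹ ∈ V := hmem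
      rw [inv_inv, MulEquiv.apply_symm_apply] at hmem'
      exact Set.disjoint_left.1 hVW hmem' hp.2
    · filter_upwards [(hC.isOpen_compl.prod isOpen_univ).mem_nhds ⟨ha, mem_univ c⟩] with
        p hp hpker
      have hpker : p.1 * (e.symm p.2 : C) = 1 := hpker
      have hp1 : p.1 = ((e.symm p.2 : C) : A)⁻¹ := eq_inv_of_mul_eq_one_left hpker
      exact hp.1 (hp1 ▸ C.inv_mem (e.symm p.2).2)
  have : IsClosed (m.ker : Set (A × L)) := hker
  let e' : A ≃* (A × L) ⧸ m.ker := (QuotientGroup.quotientKerEquivOfSurjective m hm).symm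
  have he'mk : ∀ p : A × L, e' (m p) = QuotientGroup.mk p := by
    intro p
    rw [MulEquiv.symm_apply_eq]
    rfl
  have he' : Continuous e' := by
    have h1 : (e' : A → (A × L) ⧸ m.ker) = fun a => QuotientGroup.mk (a, (1 : L)) := by
      funext a
      rw [← he'mk]
      simp [hmapp]
    rw [h1]
    exact QuotientGroup.continuous_mk.comp (by fun_prop)
  have hind := hA.isInducing e' he'
  have hcomp : IsInducing fun c : C => e' (c : A) := hind.comp IsInducing.subtypeVal
  rw [hcomp.continuous_iff]
  have h2 : ((fun c : C => e' (c : A)) ∘ e.symm) = fun l => QuotientGroup.mk ((1 : A), l) := by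
    funext l
    change e' ((e.symm l : C) : A) = _
    rw [← he'mk]
    simp [hmapp]
  rw [h2]
  exact QuotientGroup.continuous_mk.comp (by fun_prop)

/-- Minimality passes from the target to the source of a quotient homomorphism with compact
kernel. -/
theorem minimal_of_quotientMap {G : Type u} {B : Type v} [Group G] [TopologicalSpace G]
    [IsTopologicalGroup G] [Group B] [TopologicalSpace B] (f : G →* B)
    (hq : IsQuotientMap f) (hk : IsCompact (f.ker : Set G)) (hB : MinimalGroup B) :
    MinimalGroup G := by
  -- `f` is proper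
  have hclosed : IsClosedMap f := by
    intro Z hZ
    rw [← hq.isClosed_preimage]
    have : f ⁻¹' (f '' Z) = Z * (f.ker : Set G) := by
      ext x
      constructor
      · rintro ⟨z, hz, hzx⟩
        refine ⟨z, hz, z⁻¹ * x, ?_, by group⟩
        change f (z⁻¹ * x) = 1
        rw [map_mul, map_inv, hzx, inv_mul_cancel]
      · rintro ⟨z, hz, n, hn, rfl⟩
        have hn : f n = 1 := hn
        exact ⟨z, hz, by change f z = f (z * n); rw [map_mul, hn, mul_one]⟩
    rw [this]
    exact hZ.mul_right_of_isCompact hk
  have hproper : IsProperMap f := by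
    rw [isProperMap_iff_isClosedMap_and_compact_fibers]
    refine ⟨hq.continuous, hclosed, fun y => ?_⟩
    obtain ⟨g, rfl⟩ := hq.surjective y
    have : f ⁻¹' {f g} = (fun x => g * x) '' (f.ker : Set G) := by
      ext x
      constructor
      · intro hx
        have hx : f x = f g := hx
        refine ⟨g⁻¹ * x, ?_, by group⟩
        change f (g⁻¹ * x) = 1
        rw [map_mul, map_inv, hx, inv_mul_cancel]
      · rintro ⟨n, hn, rfl⟩
        have hn : f n = 1 := hn
        change f (g * n) = f g
        rw [map_mul, hn, mul_one]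
    rw [this]
    exact hk.image (continuous_const_mul g)
  refine MinimalGroup.of_forall fun L _ _ _ _ e he => ?_
  let g : L →* B := f.comp e.symm.toMonoidHom
  have hg : Function.Surjective g := hq.surjective.comp e.symm.surjective
  have hkg : IsClosed (g.ker : Set L) := by
    have : (g.ker : Set L) = e '' (f.ker : Set G) := by
      ext l
      constructor
      · intro hl
        exact ⟨e.symm l, hl, e.apply_symm_apply l⟩
      · rintro ⟨x, hx, rfl⟩
        change f (e.symm (e x)) = 1
        rw [e.symm_apply_apply]
        exact hx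
    rw [this]
    exact (hk.image he).isClosed
  have : IsClosed (g.ker : Set L) := hkg
  let e' : B ≃* L ⧸ g.ker := (QuotientGroup.quotientKerEquivOfSurjective g hg).symm
  have he'mk : ∀ p : L, e' (g p) = QuotientGroup.mk p := by
    intro p
    rw [MulEquiv.symm_apply_eq]
    rfl
  have he' : Continuous e' := by
    rw [hq.continuous_iff]
    have h1 : (e' ∘ f) = fun x => QuotientGroup.mk (e x) := by
      funext x
      rw [← he'mk]
      change e' (f x) = e' (f (e.symm (e x)))
      rw [e.symm_apply_apply]
    rw [h1]
    exact QuotientGroup.continuous_mk.comp he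
  have hind := hB.isInducing e' he'
  have hgc : Continuous g := by
    rw [hind.continuous_iff]
    have h1 : (e' ∘ g) = fun x => QuotientGroup.mk x := by
      funext x
      exact he'mk x
    rw [h1]
    exact QuotientGroup.continuous_mk
  rw [continuous_iff_ultrafilter]
  intro x U hU
  have hfU : Tendsto f (U.map e.symm) (𝓝 (f (e.symm x))) := by
    have h1 : Tendsto g U (𝓝 (g x)) := (hgc.tendsto x).mono_left hU
    exact h1
  obtain ⟨y, hy, hUy⟩ := hproper.ultrafilter_le_nhds_of_tendsto hfU
  have h1 : Tendsto e (U.map e.symm) (𝓝 (e y)) := (he.tendsto y).mono_left hUy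
  have h2 : Tendsto (fun l => e (e.symm l)) U (𝓝 (e y)) := h1
  have h3 : (fun l => e (e.symm l)) = id := by
    funext l
    exact e.apply_symm_apply l
  rw [h3] at h2
  have h4 : x = e y := tendsto_nhds_unique hU h2
  rw [h4, e.symm_apply_apply]
  exact hUy

/-- The main reduction. -/
theorem minimal_quotient {A : Type u} {K : Type v} [CommGroup A] [TopologicalSpace A]
    [IsTopologicalGroup A] [Group K] [TopologicalSpace K]
    [IsTopologicalGroup K] [CompactSpace K] (H : Subgroup (A × K))
    (hH : IsClosed (H : Set (A × K))) (M : Subgroup H) [M.Normal] (hM : IsClosed (M : Set H))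
    (hA : MinimalGroup (A ⧸ M.map ((MonoidHom.fst A K).comp H.subtype))) :
    MinimalGroup (H ⧸ M) := by
  let p : H →* A := (MonoidHom.fst A K).comp H.subtype
  have hpc : IsClosedMap p := isClosedMap_fst_of_compactSpace.comp hH.isClosedMap_subtype_val
  have hpcont : Continuous p := continuous_fst.comp continuous_subtype_val
  let pM : Subgroup A := M.map p
  change MinimalGroup (A ⧸ pM) at hA
  let B : Subgroup (A ⧸ pM) := (p.range).map (QuotientGroup.mk' pM)
  have hpre : ∀ a : A, (QuotientGroup.mk a : A ⧸ pM) ∈ B ↔ a ∈ p.range := by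
    intro a
    constructor
    · rintro ⟨b, hb, hab⟩
      have hab : (QuotientGroup.mk b : A ⧸ pM) = QuotientGroup.mk a := hab
      have h1 : b⁻¹ * a ∈ pM := QuotientGroup.eq.1 hab
      obtain ⟨m, -, hm⟩ := h1
      have h2 : a = b * (b⁻¹ * a) := by group
      rw [h2, ← hm]
      exact p.range.mul_mem hb ⟨m, rfl⟩
    · intro ha
      exact ⟨a, ha, rfl⟩
  have hBc : IsClosed (B : Set (A ⧸ pM)) := by
    rw [← (QuotientGroup.isQuotientMap_mk pM).isClosed_preimage]
    have : (QuotientGroup.mk : A → A ⧸ pM) ⁻¹' (B : Set (A ⧸ pM)) = (p.range : Set A) := by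
      ext a
      exact hpre a
    rw [this, MonoidHom.coe_range]
    exact hpc.isClosed_range
  have hBmin : MinimalGroup B := minimal_of_closed hA B hBc
  let g : H →* B :=
    ((QuotientGroup.mk' pM).comp p).codRestrict B fun h => (hpre _).2 ⟨h, rfl⟩
  have hgapp : ∀ h : H, ((g h : B) : A ⧸ pM) = QuotientGroup.mk (p h) := fun _ => rfl
  have hgc : Continuous g :=
    Continuous.subtype_mk (QuotientGroup.continuous_mk.comp hpcont) _
  have hgs : Function.Surjective g := by
    rintro ⟨b, hb⟩
    obtain ⟨a, ⟨h, rfl⟩, rfl⟩ := hb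
    exact ⟨h, rfl⟩
  have hgq : IsQuotientMap g := by
    rw [isQuotientMap_iff_isClosed]
    refine ⟨hgs, fun S => ⟨fun hS => hS.preimage hgc, fun hS => ?_⟩⟩
    have h1 : IsClosed (p '' (g ⁻¹' S)) := hpc _ hS
    have h2 : p '' (g ⁻¹' S) = (QuotientGroup.mk : A → A ⧸ pM) ⁻¹' (Subtype.val '' S) := by
      ext a
      constructor
      · rintro ⟨h, hh, rfl⟩
        exact ⟨g h, hh, rfl⟩
      · rintro ⟨s, hs, hsa⟩
        obtain ⟨h, rfl⟩ := (hpre a).1 (by
          change (QuotientGroup.mk a : A ⧸ pM) ∈ B
          rw [← hsa]; exact s.2)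
        refine ⟨h, ?_, rfl⟩
        have : g h = s := Subtype.ext hsa.symm
        change g h ∈ S
        rw [this]
        exact hs
    rw [h2] at h1
    have h3 : IsClosed (Subtype.val '' S : Set (A ⧸ pM)) :=
      (QuotientGroup.isQuotientMap_mk pM).isClosed_preimage.1 h1
    have h4 := h3.preimage (continuous_subtype_val (p := fun x => x ∈ B))
    rwa [preimage_image_eq _ Subtype.val_injective] at h4
  have hMg : M ≤ g.ker := by
    intro m hm
    rw [MonoidHom.mem_ker]
    apply Subtype.ext
    change (QuotientGroup.mk (p m) : A ⧸ pM) = 1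
    rw [QuotientGroup.eq_one_iff]
    exact ⟨m, hm, rfl⟩
  let f : H ⧸ M →* B := QuotientGroup.lift M g hMg
  have hfmk : ∀ h : H, f (QuotientGroup.mk h) = g h := fun _ => rfl
  have hfc : Continuous f := by
    rw [(QuotientGroup.isQuotientMap_mk M).continuous_iff]
    exact hgc
  have hfq : IsQuotientMap f :=
    IsQuotientMap.of_comp (f := (QuotientGroup.mk : H → H ⧸ M)) QuotientGroup.continuous_mk hfc hgq
  refine minimal_of_quotientMap f hfq ?_ hBmin
  -- the kernel of `f` is the image of a compact set
  have hN : IsCompact {h : H | p h = 1} := by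
    rw [Subtype.isCompact_iff]
    have : (Subtype.val '' {h : H | p h = 1} : Set (A × K)) =
        (H : Set (A × K)) ∩ (({1} : Set A) ×ˢ (univ : Set K)) := by
      ext ⟨a, k⟩
      constructor
      · rintro ⟨h, hh, hh'⟩
        have hh : (h : A × K).1 = 1 := hh
        rw [hh'] at hh
        exact ⟨hh' ▸ h.2, hh, mem_univ _⟩
      · rintro ⟨h1, h2, -⟩
        exact ⟨⟨(a, k), h1⟩, h2, rfl⟩
    rw [this]
    exact (isCompact_singleton.prod isCompact_univ).inter_left hH
  have hker : (f.ker : Set (H ⧸ M)) = QuotientGroup.mk '' {h : H | p h = 1} := by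
    ext x
    constructor
    · intro hx
      obtain ⟨h, rfl⟩ := QuotientGroup.mk_surjective x
      have hx : g h = 1 := hx
      have hx' : (QuotientGroup.mk (p h) : A ⧸ pM) = 1 := congrArg Subtype.val hx
      rw [QuotientGroup.eq_one_iff] at hx'
      obtain ⟨m, hm, hmh⟩ := hx'
      refine ⟨h * m⁻¹, ?_, ?_⟩
      · change p (h * m⁻¹) = 1
        rw [map_mul, map_inv, hmh, mul_inv_cancel]
      · rw [QuotientGroup.eq]
        have : (h * m⁻¹)⁻¹ * h = m := by group
        rw [this]
        exact hm
    · rintro ⟨h, hh, rfl⟩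
      have hh : p h = 1 := hh
      change g h = 1
      apply Subtype.ext
      change (QuotientGroup.mk (p h) : A ⧸ pM) = 1
      rw [hh]
      rfl
  rw [hker]
  exact hN.image QuotientGroup.continuous_mk

/-- A minimal group divided by the trivial subgroup is minimal. -/
theorem minimal_quotient_bot {A : Type u} [Group A] [TopologicalSpace A]
    [IsTopologicalGroup A] (hA : MinimalGroup A) (N : Subgroup A) [N.Normal] (hN : N = ⊥) :
    MinimalGroup (A ⧸ N) := by
  refine MinimalGroup.of_forall fun L _ _ _ _ e he => ?_
  have hbij : Function.Bijective (QuotientGroup.mk' N) := by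
    refine ⟨?_, QuotientGroup.mk'_surjective N⟩
    rw [← MonoidHom.ker_eq_bot_iff, QuotientGroup.ker_mk', hN]
  let q : A ≃* A ⧸ N := MulEquiv.ofBijective (QuotientGroup.mk' N) hbij
  have hq : Continuous q := QuotientGroup.continuous_mk
  have hind := hA.isInducing (q.trans e) (he.comp hq)
  have h1 : Continuous (q.trans e).symm := by
    rw [hind.continuous_iff]
    have : (q.trans e) ∘ (q.trans e).symm = id := by
      funext l
      exact (q.trans e).apply_symm_apply l
    rw [this]
    exact continuous_id
  have h2 : (e.symm : L → A ⧸ N) = q ∘ (q.trans e).symm := by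
    funext l
    change e.symm l = q (q.symm (e.symm l))
    rw [q.apply_symm_apply]
  rw [h2]
  exact hq.comp h1

/-- **Q1 and Q2 are true.** -/
theorem both (A : Type u) (K : Type v) [CommGroup A] [TopologicalSpace A]
    [IsTopologicalGroup A] [T2Space A] [Group K] [TopologicalSpace K] [IsTopologicalGroup K]
    [T2Space K] [CompactSpace K] :
    (MinimalGroup A → CMinimal (A × K)) ∧ (TotallyMinimal A → CTotallyMinimal (A × K)) := by
  constructor
  · intro hA H hH
    have h1 : MinimalGroup (H ⧸ (⊥ : Subgroup H)) := by
      refine minimal_quotient H hH ⊥ isClosed_singleton ?_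
      exact minimal_quotient_bot hA _ (Subgroup.map_bot _)
    refine minimal_of_quotientMap (QuotientGroup.mk' (⊥ : Subgroup H))
      (QuotientGroup.isQuotientMap_mk _) ?_ h1
    rw [QuotientGroup.ker_mk']
    exact isCompact_singleton
  · intro hA H hH M _ hM
    refine minimal_quotient H hH M hM ?_
    refine hA _ ?_
    have hpc : IsClosedMap ((MonoidHom.fst A K).comp H.subtype) :=
      isClosedMap_fst_of_compactSpace.comp hH.isClosedMap_subtype_val
    exact hpc _ hM

end Pool.Agent.V60.CMin
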